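import Pool.Agent.Helper23.Pcf.OmegaSeq

/-!
The least counterexample `α` (with `|α|` and `|a_α|` fixed) to `|pcf(a_α)| ≤ |a_α|`.

Let `α` be a limit ordinal, `|α| = ℵ_γ`, `κ = |a_α|`, `|pcf(a_α)| > κ`, and `|pcf(a_β)| ≤ |a_β|` for all
limit ordinals `β < α` with `|β| = |α|` and `|a_β| = |a_α|`.  Then:

(1) if `κ < α - γ` or `κ` is a limit cardinal, then for all `β < α` the set `pcf(a_α ∩ ℵ_β)` is bounded
in `ℵ_α`;
(2) `κ < κ ^ cf(α)`;
(3) `κ` divides `α - γ` and `cf(α) = cf(κ)`, or some `P ⊆ a_α` with `|P| < κ` has `|pcf(P)| > κ`;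
(4) if `κ` is a limit cardinal, then `κ` divides `α - γ`;
(5) if `2 ^ μ ≤ κ` for all `μ < κ`, then `κ` divides `α - γ` and `cf(α) = cf(κ)`;
(6) if `cf(α) = ω`, then for every countable ordinal `ξ` there is an infinite set `c ⊆ a_α` such that
all ultraproducts of `c` by nonprincipal ultrafilters have cofinality `ℵ_{α+ξ+1}`.
-/

set_option autoImplicit false

open Cardinal Helper23.Pcf

universe u

namespace Pool.Agent.Results.MP_d25c2b_lc.LeastCounterexample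

theorem result (α : Ordinal.{u}) (hα : Order.IsSuccLimit α)
    (h : #(aSet α) < #(pcf (aSet α)))
    (hmin : ∀ β < α, Order.IsSuccLimit β → β.card = α.card → #(aSet β) = #(aSet α) →
      #(pcf (aSet β)) ≤ #(aSet β)) :
    ∃ (γ : Ordinal.{u}) (κ : Cardinal.{u}), α.card = ℵ_ γ ∧ γ < α ∧
      #(aSet α) = Cardinal.lift.{u + 1} κ ∧
      -- (1)
      ((κ.ord < α - γ ∨ Order.IsSuccLimit κ) → ∀ β < α, ∃ ξ < α,
        ∀ μ ∈ pcf (aSet α ∩ Set.Iio (ℵ_ β)), μ < ℵ_ ξ) ∧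
      -- (2)
      κ < κ ^ α.cof ∧
      -- (3)
      ((κ.ord ∣ α - γ ∧ α.cof = κ.ord.cof) ∨
        ∃ P ⊆ aSet α, #P < Cardinal.lift.{u + 1} κ ∧ Cardinal.lift.{u + 1} κ < #(pcf P)) ∧
      -- (4)
      (Order.IsSuccLimit κ → κ.ord ∣ α - γ) ∧
      -- (5)
      ((∀ μ < κ, 2 ^ μ ≤ κ) → κ.ord ∣ α - γ ∧ α.cof = κ.ord.cof) ∧
      -- (6)
      (α.cof = ℵ₀ → ∀ ξ : Ordinal.{u}, ξ.card ≤ ℵ₀ → ∃ c ⊆ aSet α, c.Infinite ∧
        ∀ D : Ultrafilter c, (∀ x : c, {x} ∉ D) →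
          Order.cof (UProd D (fun x : c => x.1.ord)) =
            Cardinal.lift.{u + 1} (ℵ_ (α + ξ + 1))) := by
  have hα0 : ℵ₀ ≤ α.card := by
    rw [Ordinal.aleph0_le_card]
    exact Ordinal.omega0_le_of_isSuccLimit hα
  obtain ⟨γ, hγ'⟩ := Cardinal.mem_range_aleph_iff.2 hα0
  have hγ : α.card = ℵ_ γ := hγ'.symm
  have hne : (aSet α).Nonempty := by
    by_contra hcon
    rw [Set.not_nonempty_iff_eq_empty] at hcon
    rw [pcf_aSet, hcon, pcfS_empty] at h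
    exact lt_irrefl _ h
  have hγα : γ < α := by
    obtain ⟨κ, hκ⟩ := hne
    rw [← Cardinal.aleph_lt_aleph, hγ']
    exact (Order.succ_le_iff.1 hκ.2.1).trans hκ.2.2
  have hA : aSet α = ival (ℵ_ γ) (ℵ_ α) := aSet_eq hγ
  set κ := (α - γ).card with hκ
  have hAc : #(aSet α) = Cardinal.lift.{u+1} κ := by rw [hA, mk_ival hα hγα]
  have h0 : ℵ₀ ≤ κ := by
    rw [hκ, Ordinal.aleph0_le_card]
    exact Ordinal.omega0_le_of_isSuccLimit (sub_isSuccLimit hα hγα)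
  have hκγ : κ ≤ ℵ_ γ := by rw [← hγ]; exact Ordinal.card_le_card (Ordinal.sub_le_self _ _)
  have hbig : Cardinal.lift.{u+1} κ < #(pcfS (ival (ℵ_ γ) (ℵ_ α))) := by
    rw [pcf_aSet, hAc, hA] at h
    exact h
  have hL : ∀ β < α, Order.IsSuccLimit β → γ + κ.ord ≤ β →
      #(pcfS (ival (ℵ_ γ) (ℵ_ β))) ≤ Cardinal.lift.{u+1} κ := by
    intro β hβα hβ hκβ
    rcases aleph_eq_self_aux hγ hγα hκ hκβ hβα.le with ⟨h1, h2, h3⟩ | h1
    · have h4 : aSet β = ival (ℵ_ γ) (ℵ_ β) := aSet_eq h2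
      have h5 : #(aSet β) = Cardinal.lift.{u+1} κ := by rw [h4, mk_ival hβ h3, h1]
      have h6 := hmin β hβα hβ (by rw [h2, hγ]) (by rw [h5, hAc])
      rw [pcf_aSet, h5, h4] at h6
      exact h6
    · exact absurd h1 (aleph0_pos.trans_le h0).ne'
  have hreg : ∀ {P : Set Cardinal.{u}}, P ⊆ aSet α → ∀ μ ∈ P, μ.IsRegular :=
    fun hP μ hμ => (hP hμ).1
  have hsm : ∀ {P : Set Cardinal.{u}}, P ⊆ aSet α → Small.{u} P := fun hP => small_subset hP
  have hlimκ : Order.IsSuccLimit κ → ∀ μ < κ, Order.succ μ < κ := fun hl μ hμ => hl.succ_lt hμ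
  have key3 : (∀ P ⊆ aSet α, #P < Cardinal.lift.{u+1} κ → #(pcfS P) ≤ Cardinal.lift.{u+1} κ) →
      κ.ord ∣ α - γ ∧ α.cof = κ.ord.cof := by
    intro H
    refine ⟨least_dvd hγα hκ h0 hbig hL ?_, least_cof hα hγα hκ h0 hκγ hbig hL ?_⟩
    · intro δ hδ hδκ
      refine H _ ?_ ?_
      · rw [hA]; exact ival_mono (Cardinal.aleph_le_aleph.2 hδ) le_rfl
      · refine lt_of_le_of_lt (mk_le_card' (x := α) (y := δ) fun μ h => ⟨h.2.1, h.2.2⟩) ?_
        exact Cardinal.lift_lt.2 hδκ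
    · intro P hP hPc
      rw [← hA] at hP
      exact H P hP hPc
  refine ⟨γ, κ, hγ, hγα, hAc, ?_, least_pow hα hγα hκ h0 hκγ hbig hL, ?_, ?_, ?_, ?_⟩
  · intro h1 β hβ
    have h2 : κ.ord < α - γ ∨ ∀ μ < κ, Order.succ μ < κ := h1.imp_right hlimκ
    obtain ⟨ξ, hξ, hξ'⟩ := least_closed hκ hκγ hbig hβ (least_small h0 hκγ hL h2 β hβ)
    refine ⟨ξ, hξ, fun μ hμ => ?_⟩
    have hsub : aSet α ∩ Set.Iio (ℵ_ β) ⊆ aSet α := Set.inter_subset_left
    have := hsm hsub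
    rw [pcf_eq_pcfS (hreg hsub)] at hμ
    refine hξ' μ (pcfS_mono ?_ hμ)
    rintro ν ⟨g1, g2⟩
    rw [hA] at g1
    exact ⟨g1.1, g1.2.1, g2⟩
  · by_cases hP : ∃ P ⊆ aSet α, #P < Cardinal.lift.{u + 1} κ ∧ Cardinal.lift.{u + 1} κ < #(pcf P)
    · exact Or.inr hP
    · left
      push Not at hP
      refine key3 fun P hPs hPc => ?_
      have := hsm hPs
      have h2 := hP P hPs hPc
      rwa [pcf_eq_pcfS (hreg hPs)] at h2
  · intro hl
    refine least_dvd hγα hκ h0 hbig hL fun δ hδ hδκ => ?_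
    exact small_pcf h0 (hlimκ hl) (hκγ.trans (Cardinal.aleph_le_aleph.2 hδ)) hδκ
  · intro h2
    refine key3 fun P hPs hPc => ?_
    obtain ⟨k, hk⟩ := Cardinal.mem_range_lift_of_le hPc.le
    have hkκ : k < κ := by rw [← hk] at hPc; exact Cardinal.lift_lt.1 hPc
    refine (mk_pcfS_le (hreg hPs) hk.symm fun μ hμ => ?_).trans (Cardinal.lift_le.2 (h2 k hkκ))
    have h3 := hPs hμ
    rw [hA] at h3
    exact ((h2 k hkκ).trans hκγ).trans_lt h3.2.1
  · intro hcof ξ hξ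
    have hle : κ.ord ≤ α - γ := by rw [Cardinal.ord_le]
    have hκord0 : κ.ord ≠ 0 := by
      rw [Ne, Cardinal.ord_eq_zero]
      exact (aleph0_pos.trans_le h0).ne'
    have h1 : κ.ord < α - γ ∨ Order.IsSuccLimit κ := by
      rcases hle.eq_or_lt with heq | hlt
      · right
        have h2 : α.cof = κ.ord.cof := by
          rw [← Ordinal.add_sub_cancel_of_le hγα.le, ← heq, Ordinal.cof_add _ hκord0]
        rw [Cardinal.isSuccLimit_iff]
        refine ⟨(aleph0_pos.trans_le h0).ne', ?_⟩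
        by_contra hcon
        rw [Order.not_isSuccPrelimit_iff_mem_range_succ] at hcon
        obtain ⟨μ, hμ⟩ := hcon
        rcases lt_or_ge μ ℵ₀ with h3 | h3
        · obtain ⟨m, rfl⟩ := Cardinal.lt_aleph0.1 h3
          refine absurd h0 (not_le.2 ?_)
          rw [← hμ, Cardinal.succ_natCast]
          exact Cardinal.add_lt_aleph0 Cardinal.natCast_lt_aleph0 Cardinal.one_lt_aleph0
        · have h4 := (Cardinal.isRegular_succ h3).cof_ord
          rw [hμ, ← h2, hcof] at h4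
          have h5 : μ < κ := by rw [← hμ]; exact Order.lt_succ μ
          rw [← h4] at h5
          exact absurd h3 (not_le.2 h5)
      · exact Or.inl hlt
    have hcl : ∀ β < α, ∀ l ∈ pcfS (ival (ℵ_ γ) (ℵ_ β)), l < ℵ_ α := by
      intro β hβ l hl
      obtain ⟨x, hx, h⟩ := least_closed hκ hκγ hbig hβ
        (least_small h0 hκγ hL (h1.imp_right hlimκ) β hβ)
      exact (h l hl).trans (Cardinal.aleph_lt_aleph.2 hx)
    have hsm0 : Small.{u} (ival (ℵ_ γ) (ℵ_ α)) :=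
      small_subset (show ival (ℵ_ γ) (ℵ_ α) ⊆ Set.Iio (ℵ_ α) from fun κ h => h.2.2)
    have hlmem : ℵ_ (α + ξ + 1) ∈ pcfS (ival (ℵ_ γ) (ℵ_ α)) := by
      have h2 : ∃ l ∈ pcfS (ival (ℵ_ γ) (ℵ_ α)), ℵ_ (α + ξ + 1) ≤ l := by
        by_contra hcon
        push Not at hcon
        have h3 : #(pcfS (ival (ℵ_ γ) (ℵ_ α))) ≤
            Cardinal.lift.{u + 1} ((α + ξ + 1) - γ).card :=
          mk_le_card' fun μ hμ =>
            ⟨lt_of_mem_pcfS (fun κ h => h.1) (fun κ h => h.2.1) hμ, hcon μ hμ⟩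
        refine absurd (hbig.trans_le h3) (not_lt.2 (Cardinal.lift_le.2 ?_))
        have h4 : (α + ξ + 1) - γ ≤ (α - γ) + ξ + 1 := by
          refine Ordinal.sub_le.2 ?_
          rw [← add_assoc, ← add_assoc, Ordinal.add_sub_cancel_of_le hγα.le]
        refine (Ordinal.card_le_card h4).trans ?_
        rw [Ordinal.card_add, Ordinal.card_add, Ordinal.card_one]
        exact Cardinal.add_le_of_le h0 (Cardinal.add_le_of_le h0 le_rfl (hξ.trans h0))
          (one_lt_aleph0.le.trans h0)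
      obtain ⟨l, hl, hl'⟩ := h2
      refine nohole rfl ?_ (Cardinal.aleph0_le_aleph _) hl (Cardinal.isRegular_aleph_add_one _)
        (Cardinal.aleph_lt_aleph.2 ?_) hl'
      · exact (mk_le_card' (x := α) (y := γ) fun μ h => ⟨h.2.1, h.2.2⟩).trans
          (Cardinal.lift_le.2 hκγ)
      · refine hγα.trans_le (le_trans (le_self_add (b := ξ)) ?_)
        exact le_self_add
    obtain ⟨c, hc1, hc2, hc3⟩ := omega_seq h0 le_rfl hκγ hα hγα hcof hcl hξ hlmem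
    have hc1' : c ⊆ aSet α := by rw [hA]; exact hc1
    have := hsm hc1'
    exact ⟨c, hc1', hc2, fun D hD => cof_of_pcf_infty (hreg hc1') hc3 D hD⟩

end Pool.Agent.Results.MP_d25c2b_lc.LeastCounterexample
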