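import Pool.Agent.Helper23.Pcf.GH2

/-!
A Silver / Galvin-Hajnal type theorem for the number of possible cofinalities of the intervals `a_α`.

(1) Let `κ` be a strong limit cardinal of uncountable cofinality and `n < ω`.  If
`|pcf(a_x)| ≤ |x|^{+n}` for stationary many `x < κ`, then `|pcf(a_κ)| ≤ κ^{+n}`.  For `n = 0`: if
`|pcf(a_x)| ≤ |a_x|` for stationary many `x < κ`, then `|pcf(a_κ)| ≤ |a_κ|`.

(2) If `κ` is a strong limit cardinal with `|pcf(a_κ)| > |a_κ|`, and `|pcf(a_μ)| ≤ |a_μ|` for all strong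
limit cardinals `μ < κ`, then `κ` has cofinality `ω`.

(3) The same as (1) for all intervals of length `κ` of regular cardinals above `κ`.

(4) Without the strong limit assumption: let `κ` be singular of uncountable cofinality and
`|pcf(a_x)| ≤ |a_x|` for stationary many `x < κ`.  Then `|pcf(a_κ)| ≤ |a_κ|`, or some `P ⊆ a_κ` with
`|P| < |a_κ|` has `|pcf(P)| > |a_κ|`.
-/

set_option autoImplicit false

open Cardinal Helper23.Pcf

universe u

namespace Pool.Agent.Results.MP_d25c2b_lc.SilverType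

/-- The interval of all regular cardinals strictly between `ℵ_θ` and `ℵ_{θ+ρ}`. -/
def interval (θ ρ : Ordinal.{u}) : Set Cardinal.{u} :=
  {κ | κ.IsRegular ∧ ℵ_ θ < κ ∧ κ < ℵ_ (θ + ρ)}

theorem interval_eq (θ ρ : Ordinal.{u}) : interval θ ρ = ival (ℵ_ θ) (ℵ_ (θ + ρ)) := rfl

instance (θ ρ : Ordinal.{u}) : Small.{u} (interval θ ρ) :=
  small_subset (show interval θ ρ ⊆ Set.Iio (ℵ_ (θ + ρ)) from fun _ h => h.2.2)

theorem pcf_interval (θ ρ : Ordinal.{u}) : pcf (interval θ ρ) = pcfS (interval θ ρ) :=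
  pcf_eq_pcfS fun _ h => h.1

/-- small sets have small pcf below a strong limit cardinal -/
theorem hyp_of_strongLimit {κ : Cardinal.{u}} (h : κ.IsStrongLimit) {P : Set Cardinal.{u}}
    (hreg : ∀ μ ∈ P, μ.IsRegular) (hκ : ∀ μ ∈ P, κ < μ) (hP : #P < Cardinal.lift.{u+1} κ) :
    #(pcfS P) ≤ Cardinal.lift.{u+1} κ := by
  obtain ⟨k, hk⟩ := Cardinal.mem_range_lift_of_le hP.le
  have hkκ : k < κ := by rw [← hk] at hP; exact Cardinal.lift_lt.1 hP
  have h2 := h.isStrongPrelimit hkκ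
  exact (mk_pcfS_le hreg hk.symm fun μ hμ => h2.trans (hκ μ hμ)).trans (Cardinal.lift_le.2 h2.le)

theorem aSet_gt {κ : Cardinal.{u}} : ∀ μ ∈ aSet κ.ord, κ < μ := fun μ h => by
  have := Order.succ_le_iff.1 h.2.1
  rwa [Cardinal.card_ord] at this

theorem mk_aSet_le (x : Ordinal.{u}) : #(aSet x) ≤ Cardinal.lift.{u+1} x.card :=
  mk_le_card fun _ h => ⟨h.1.1, h.2.2⟩

/-- `|a_κ| = κ` unless `a_κ` is empty -/
theorem mk_aSet_or {κ : Cardinal.{u}} (hκ : ℵ₀ ≤ κ) :
    aSet κ.ord = ∅ ∨ #(aSet κ.ord) = Cardinal.lift.{u+1} κ := by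
  obtain ⟨γ, hγ⟩ := Cardinal.mem_range_aleph_iff.2 hκ
  have hA : aSet κ.ord = ival (ℵ_ γ) (ℵ_ κ.ord) := aSet_eq (by rw [Cardinal.card_ord, hγ])
  rcases lt_or_ge γ κ.ord with hlt | hge
  · right
    rw [hA, mk_ival (Cardinal.isSuccLimit_ord hκ) hlt]
    congr 1
    have hadd : γ + κ.ord = κ.ord := (Ordinal.isPrincipal_add_ord hκ).add_eq_right hlt
    have : κ.ord - γ = κ.ord := by
      conv_lhs => rw [← hadd]
      exact Ordinal.add_sub_cancel _ _
    rw [this, Cardinal.card_ord]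
  · left
    rw [hA]
    ext μ
    simp only [ival, Set.mem_ofPred_eq, Set.mem_empty_iff_false, iff_false, not_and, not_lt]
    intro _ h
    exact (Cardinal.aleph_le_aleph.2 hge).trans h.le

theorem pcf_empty_le {κ : Cardinal.{u}} (h : aSet κ.ord = ∅) (c : Cardinal.{u+1}) :
    #(pcf (aSet κ.ord)) ≤ c := by
  rw [pcf_aSet, h, pcfS_empty]; simp

theorem stat_mono {κ : Cardinal.{u}} {p q : Ordinal.{u} → Prop} (hpq : ∀ x, p x → q x)
    (h : IsStationary {x : Set.Iio κ.ord | p x.1}) : StatIn {x | q x} κ.ord := by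
  refine (statIn_of_isStationary h).mono ?_
  rintro x ⟨_, hx⟩
  exact hpq _ hx

/-- strong limit cardinals form a club below a strong limit cardinal of uncountable cofinality -/
theorem club_strongLimit {κ : Cardinal.{u}} (h : κ.IsStrongLimit) (hσ : ℵ₀ < κ.ord.cof) :
    ClubIn {x | x.card.ord = x ∧ x.card.IsStrongLimit} κ.ord := by
  have hκ0 : ℵ₀ ≤ κ := hσ.le.trans (Ordinal.cof_ord_le κ)
  refine ⟨?_, ?_⟩
  · intro x hx
    have hg : ∀ y < κ.ord, y < max (Order.succ y) (Order.succ (2 ^ y.card : Cardinal.{u})).ord ∧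
        max (Order.succ y) (Order.succ (2 ^ y.card : Cardinal.{u})).ord < κ.ord := by
      intro y hy
      refine ⟨(Order.lt_succ y).trans_le (le_max_left _ _), ?_⟩
      refine max_lt ((Cardinal.isSuccLimit_ord hκ0).succ_lt hy) (Cardinal.ord_lt_ord.2 ?_)
      have h1 := h.isStrongPrelimit (Cardinal.lt_ord.1 hy)
      exact (h.isSuccLimit).succ_lt h1
    obtain ⟨z, hz, hxz, hz'⟩ := exists_iter hσ
      (fun y => max (Order.succ y) (Order.succ (2 ^ y.card : Cardinal.{u})).ord) hg x hx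
    · have hzord : z.card.ord = z := by
        by_contra hne
        have hlt : z.card.ord < z := lt_of_le_of_ne (Cardinal.ord_card_le z) hne
        obtain ⟨y, _, h2, h3⟩ := hz' _ hlt
        have h4 : (Order.succ (2 ^ y.card : Cardinal.{u})).ord < z := (le_max_right _ _).trans_lt h3
        have h5 : Order.succ (2 ^ y.card) ≤ z.card := by
          have := Ordinal.card_le_card h4.le
          rwa [Cardinal.card_ord] at this
        have h6 : z.card ≤ y.card := by
          have := Ordinal.card_le_card h2.le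
          rwa [Cardinal.card_ord] at this
        exact absurd ((Cardinal.cantor y.card).trans (Order.lt_succ _))
          (not_lt.2 (h5.trans h6))
      refine ⟨z, ⟨hzord, ?_, ?_⟩, hxz, hz⟩
      · intro h0
        rw [h0, Cardinal.ord_zero] at hzord
        rw [← hzord] at hxz
        exact absurd hxz (not_lt.2 zero_le)
      · intro c hc
        have hc' : c.ord < z := by rw [← hzord]; exact Cardinal.ord_lt_ord.2 hc
        obtain ⟨y, _, h2, h3⟩ := hz' _ hc'
        have h4 : (Order.succ (2 ^ y.card : Cardinal.{u})).ord < z := (le_max_right _ _).trans_lt h3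
        have h5 : Order.succ (2 ^ y.card) ≤ z.card := by
          have := Ordinal.card_le_card h4.le
          rwa [Cardinal.card_ord] at this
        have h6 : c ≤ y.card := by
          have := Ordinal.card_le_card h2.le
          rwa [Cardinal.card_ord] at this
        exact ((Cardinal.power_le_power_left two_ne_zero h6).trans_lt (Order.lt_succ _)).trans_le h5
  · intro δ hδ hδ0 hu
    have hkey : ∀ c : Cardinal.{u}, c.ord < δ → ∃ μ : Cardinal.{u}, c < μ ∧ μ.IsStrongLimit ∧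
        μ ≤ δ.card := by
      intro c hc
      obtain ⟨y, ⟨hy, hy'⟩, h1, h2⟩ := hu _ hc
      refine ⟨y.card, ?_, hy', Ordinal.card_le_card h2.le⟩
      rw [← Cardinal.ord_lt_ord, hy]; exact h1
    have hδord : δ.card.ord = δ := by
      by_contra hne
      obtain ⟨μ, h1, _, h3⟩ := hkey _ (lt_of_le_of_ne (Cardinal.ord_card_le δ) hne)
      exact absurd h1 (not_lt.2 h3)
    refine ⟨hδord, ?_, ?_⟩
    · intro h0
      rw [h0, Cardinal.ord_zero] at hδord
      exact hδ0.ne hδord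
    · intro c hc
      obtain ⟨μ, h1, h2, h3⟩ := hkey c (by rw [← hδord]; exact Cardinal.ord_lt_ord.2 hc)
      exact (h2.isStrongPrelimit h1).trans_le h3

theorem cof_lt_of_strongLimit {κ : Cardinal.{u}} (h : κ.IsStrongLimit) (hσ : ℵ₀ < κ.ord.cof)
    (hne : aSet κ.ord ≠ ∅) : κ.ord.cof < κ := by
  have hκ0 : ℵ₀ ≤ κ := hσ.le.trans (Ordinal.cof_ord_le κ)
  obtain ⟨γ, hγ⟩ := Cardinal.mem_range_aleph_iff.2 hκ0
  have hlt : γ < κ.ord := by
    obtain ⟨μ, hμ⟩ := Set.nonempty_iff_ne_empty.2 hne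
    rw [← Cardinal.aleph_lt_aleph, hγ]
    exact (aSet_gt μ hμ).trans hμ.2.2
  have hγlim : Order.IsSuccPrelimit γ := by
    by_contra hcon
    rw [Order.not_isSuccPrelimit_iff_mem_range_succ] at hcon
    obtain ⟨δ, hδ⟩ := hcon
    have h1 : κ = Order.succ (ℵ_ δ) := by
      rw [← hγ, ← hδ, Order.succ_eq_add_one, Cardinal.succ_aleph]
    have h2 : ℵ_ δ < κ := by rw [h1]; exact Order.lt_succ _
    have h3 := (h.isSuccLimit).succ_lt h2
    rw [← h1] at h3
    exact lt_irrefl _ h3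
  have hγ0 : γ ≠ 0 := by
    rintro rfl
    rw [Cardinal.aleph_zero] at hγ
    rw [← hγ] at hσ
    exact absurd hσ (not_lt.2 (Ordinal.cof_ord_le _))
  have hcof : κ.ord.cof ≤ γ.card := by
    rw [← hγ, Cardinal.ord_aleph, Ordinal.cof_omega ⟨by rwa [isMin_iff_eq_bot], hγlim⟩]
    exact Ordinal.cof_le_card γ
  exact hcof.trans_lt (Cardinal.lt_ord.1 hlt)

theorem strong_aSet {κ : Cardinal.{u}} (n : ℕ) (h : κ.IsStrongLimit) (hσ : ℵ₀ < κ.ord.cof)
    (hS : StatIn {x | #(pcf (aSet x)) ≤ Cardinal.lift.{u+1} (succN x.card n)} κ.ord) :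
    #(pcf (aSet κ.ord)) ≤ Cardinal.lift.{u+1} (succN κ n) := by
  by_cases hne : aSet κ.ord = ∅
  · exact pcf_empty_le hne _
  have hcof := cof_lt_of_strongLimit h hσ hne
  rw [pcf_aSet]
  refine gh_aSet hσ hcof n (Or.inr (h.isStrongPrelimit hcof).le) ?_ ?_
  · intro P hP hPc
    exact hyp_of_strongLimit h (fun μ hμ => (hP hμ).1) (fun μ hμ => aSet_gt μ (hP hμ)) hPc
  · refine hS.mono fun x hx => ?_
    show #(pcfS (aSet x)) ≤ _
    rw [← pcf_aSet]; exact hx

theorem strong_zero {κ : Cardinal.{u}} (h : κ.IsStrongLimit) (hσ : ℵ₀ < κ.ord.cof)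
    (hS : StatIn {x | #(pcf (aSet x)) ≤ #(aSet x)} κ.ord) :
    #(pcf (aSet κ.ord)) ≤ #(aSet κ.ord) := by
  have hκ0 : ℵ₀ ≤ κ := hσ.le.trans (Ordinal.cof_ord_le κ)
  rcases mk_aSet_or hκ0 with h1 | h1
  · exact pcf_empty_le h1 _
  · rw [h1]
    refine strong_aSet 0 h hσ (hS.mono fun x hx => ?_)
    exact le_trans (show #(pcf (aSet x)) ≤ #(aSet x) from hx) (mk_aSet_le x)

theorem result :
    -- (1) strong limit cardinals of uncountable cofinality
    (∀ κ : Cardinal.{u}, κ.IsStrongLimit → ℵ₀ < κ.ord.cof →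
      (∀ n : ℕ, IsStationary {x : Set.Iio κ.ord |
          #(pcf (aSet x.1)) ≤ Cardinal.lift.{u + 1} (succN x.1.card n)} →
        #(pcf (aSet κ.ord)) ≤ Cardinal.lift.{u + 1} (succN κ n)) ∧
      (IsStationary {x : Set.Iio κ.ord | #(pcf (aSet x.1)) ≤ #(aSet x.1)} →
        #(pcf (aSet κ.ord)) ≤ #(aSet κ.ord))) ∧
    -- (2) the least strong limit counterexample has countable cofinality
    (∀ κ : Cardinal.{u}, κ.IsStrongLimit → #(aSet κ.ord) < #(pcf (aSet κ.ord)) →
      (∀ μ < κ, μ.IsStrongLimit → #(pcf (aSet μ.ord)) ≤ #(aSet μ.ord)) →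
      κ.ord.cof = ℵ₀) ∧
    -- (3) intervals of length `κ`
    (∀ (κ : Cardinal.{u}) (θ : Ordinal.{u}) (n : ℕ), κ.IsStrongLimit → κ.ord.cof < κ →
      ℵ₀ < κ.ord.cof → κ ≤ ℵ_ θ →
      IsStationary {x : Set.Iio κ.ord |
        #(pcf (interval θ x.1)) ≤ Cardinal.lift.{u + 1} (succN x.1.card n)} →
      #(pcf (interval θ κ.ord)) ≤ Cardinal.lift.{u + 1} (succN κ n)) ∧
    -- (4) singular cardinals of uncountable cofinality
    (∀ κ : Cardinal.{u}, κ.ord.cof < κ → ℵ₀ < κ.ord.cof →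
      IsStationary {x : Set.Iio κ.ord | #(pcf (aSet x.1)) ≤ #(aSet x.1)} →
      #(pcf (aSet κ.ord)) ≤ #(aSet κ.ord) ∨
        ∃ P ⊆ aSet κ.ord, #P < #(aSet κ.ord) ∧ #(aSet κ.ord) < #(pcf P)) := by
  refine ⟨fun κ h hσ => ⟨fun n hS => ?_, fun hS => ?_⟩, fun κ h hlt hmin => ?_,
    fun κ θ n h hcof hσ hκθ hS => ?_, fun κ hcof hσ hS => ?_⟩
  · exact strong_aSet n h hσ (stat_mono (fun _ hx => hx) hS)
  · exact strong_zero h hσ (stat_mono (fun _ hx => hx) hS)
  · by_contra hne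
    have hκ0 : ℵ₀ ≤ κ := h.aleph0_le
    have hσ : ℵ₀ < κ.ord.cof := by
      refine lt_of_le_of_ne ?_ (Ne.symm hne)
      exact Ordinal.aleph0_le_cof_iff.2 (Ordinal.one_lt_cof_iff.2 (Cardinal.isSuccLimit_ord hκ0))
    refine absurd (strong_zero h hσ ?_) (not_le.2 hlt)
    intro C hC
    obtain ⟨x, hx, _, hxκ⟩ := (club_inter hσ (club_strongLimit h hσ) hC).unb 0
      (Cardinal.isSuccLimit_ord hκ0).bot_lt
    refine ⟨x, ?_, hx.2, hxκ⟩
    have := hmin x.card (Cardinal.lt_ord.1 hxκ) hx.1.2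
    rwa [hx.1.1] at this
  · rw [pcf_interval]
    refine gh_ival hσ hcof hκθ n (Or.inr (h.isStrongPrelimit hcof).le) ?_ ?_
    · intro P hP hPc
      exact hyp_of_strongLimit h (fun μ hμ => (hP hμ).1)
        (fun μ hμ => hκθ.trans_lt (hP hμ).2.1) hPc
    · refine stat_mono (p := fun x => #(pcf (interval θ x)) ≤
        Cardinal.lift.{u + 1} (succN x.card n)) (fun x hx => ?_) hS
      rw [pcf_interval] at hx
      exact hx
  · have hκ0 : ℵ₀ ≤ κ := (hσ.trans hcof).le
    rcases mk_aSet_or hκ0 with h1 | h1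
    · exact Or.inl (pcf_empty_le h1 _)
    by_cases hP : ∃ P ⊆ aSet κ.ord, #P < #(aSet κ.ord) ∧ #(aSet κ.ord) < #(pcf P)
    · exact Or.inr hP
    · left
      push Not at hP
      rw [h1] at hP ⊢
      rw [pcf_aSet]
      refine gh_aSet hσ hcof 0 (Or.inl rfl) ?_ ?_
      · intro P hPs hPc
        have : Small.{u} P := small_subset hPs
        have h2 := hP P hPs hPc
        rwa [pcf_eq_pcfS (fun μ hμ => (hPs hμ).1)] at h2
      · refine stat_mono (p := fun x => #(pcf (aSet x)) ≤ #(aSet x)) (fun x hx => ?_) hS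
        rw [pcf_aSet] at hx
        exact le_trans hx (mk_aSet_le x)

end Pool.Agent.Results.MP_d25c2b_lc.SilverType
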